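import Pool.Agent.AT8.Stmts2

/-!
# RVA: the ring of the combinations of linear characters
-/

set_option autoImplicit false
set_option linter.unusedSectionVars false
set_option linter.style.haveILetI false

open scoped BigOperators

noncomputable section

namespace Pool.Agent.PP.T8.H21

open Pool.Agent.Helper51_AWC Pool.Agent.Helper79_WRA Pool.Agent.PP Pool.Agent.PP.KF
open Pool.Agent.PP.K9 Pool.Agent.PP.K9.H97 Pool.Agent.PP.H75 Pool.Agent.PP.T3 Pool.Agent.PP.T2

attribute [local instance] Ideal.Quotient.field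

section four

variable {V : Type} [Group V] [Finite V]

/-- the coefficient of `lam` -/
def cf (f : V → ℂ) (lam : V →* ℂ) : ℂ := (Nat.card V : ℂ)⁻¹ * ∑ᶠ v : V, f v * lam v⁻¹

theorem cardC_ne : (Nat.card V : ℂ) ≠ 0 := by
  have : 0 < Nat.card V := Nat.card_pos
  exact_mod_cast this.ne'

theorem lam_pow (lam : V →* ℂ) (v : V) : lam v ^ Nat.card V = 1 := by
  rw [← map_pow, pow_card_eq_one', map_one]

theorem lam_integral (lam : V →* ℂ) (v : V) : IsIntegral ℤ (lam v) := by
  refine IsIntegral.of_pow (n := Nat.card V) Nat.card_pos ?_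
  rw [lam_pow]
  exact isIntegral_one

theorem lam_inv (lam : V →* ℂ) (v : V) : lam v * lam v⁻¹ = 1 := by
  rw [← map_mul, mul_inv_cancel, map_one]

/-- the homomorphisms `V → ℂ` form a finite type -/
theorem finite_hom : Finite (V →* ℂ) := by
  classical
  haveI := Fintype.ofFinite V
  haveI : NeZero (Nat.card V) := ⟨Nat.card_pos.ne'⟩
  haveI : Finite (rootsOfUnity (Nat.card V) ℂ) := inferInstance
  refine Finite.of_injective
    (fun (lam : V →* ℂ) (v : V) => (⟨Units.mk0 (lam v) (by
      intro h
      have := lam_inv lam v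
      rw [h, zero_mul] at this
      exact zero_ne_one this), by
      rw [mem_rootsOfUnity]
      ext
      push_cast
      exact lam_pow lam v⟩ : rootsOfUnity (Nat.card V) ℂ)) ?_
  intro l l' h
  ext v
  have := congrFun h v
  have h2 := congrArg (fun x : rootsOfUnity (Nat.card V) ℂ => ((x : ℂˣ) : ℂ)) this
  exact h2

/-- column orthogonality -/
theorem sum_lam (hV : ∀ a b : V, a * b = b * a) (x : V) [Fintype (V →* ℂ)] [Decidable (x = 1)] :
    ∑ lam : V →* ℂ, lam x = if x = 1 then (Nat.card V : ℂ) else 0 := by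
  classical
  letI : CommGroup V := { (inferInstance : Group V) with mul_comm := hV }
  haveI : NeZero (Monoid.exponent V) := ⟨Monoid.exponent_ne_zero_of_finite⟩
  haveI : HasEnoughRootsOfUnity ℂ (Monoid.exponent V) := inferInstance
  have hcard : Fintype.card (V →* ℂ) = Nat.card V := by
    obtain ⟨e⟩ := CommGroup.monoidHom_mulEquiv_of_hasEnoughRootsOfUnity V ℂ
    have e2 : (V →* ℂ) ≃ (V →* ℂˣ) := (MonoidHom.toHomUnitsMulEquiv (G := V) (M := ℂ)).toEquiv
    rw [← Nat.card_eq_fintype_card, Nat.card_congr e2, Nat.card_congr e.toEquiv]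
  by_cases hx : x = 1
  · rw [if_pos hx, hx]
    simp only [map_one, Finset.sum_const, Finset.card_univ, nsmul_eq_mul, mul_one, hcard]
  · rw [if_neg hx]
    obtain ⟨phi, hphi⟩ := CommGroup.exists_apply_ne_one_of_hasEnoughRootsOfUnity V ℂ hx
    set mu : V →* ℂ := (Units.coeHom ℂ).comp phi with hmu
    have hmx : mu x ≠ 1 := by
      intro h
      apply hphi
      ext
      simpa [hmu] using h
    have h1 : mu x * ∑ lam : V →* ℂ, lam x = ∑ lam : V →* ℂ, lam x := by
      rw [Finset.mul_sum]
      refine Fintype.sum_bijective (fun lam => mu * lam) ?_ _ _ fun lam => by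
        rw [MonoidHom.mul_apply]
      refine Function.bijective_iff_has_inverse.2 ⟨fun lam => ((Units.coeHom ℂ).comp phi⁻¹) * lam,
        fun lam => ?_, fun lam => ?_⟩
      · ext v
        simp [hmu]
      · ext v
        simp [hmu]
    have h2 : (mu x - 1) * ∑ lam : V →* ℂ, lam x = 0 := by
      rw [sub_mul, h1, one_mul, sub_self]
    exact (mul_eq_zero.1 h2).resolve_left (sub_ne_zero.2 hmx)

theorem cf_eq [Fintype V] (f : V → ℂ) (lam : V →* ℂ) :
    cf f lam = (Nat.card V : ℂ)⁻¹ * ∑ v : V, f v * lam v⁻¹ := by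
  unfold cf
  rw [finsum_eq_sum_of_fintype]

/-- Fourier inversion -/
theorem inversion (hV : ∀ a b : V, a * b = b * a) [Fintype (V →* ℂ)] (f : V → ℂ) (v : V) :
    f v = ∑ lam : V →* ℂ, cf f lam * lam v := by
  classical
  haveI := Fintype.ofFinite V
  have h1 : ∑ lam : V →* ℂ, cf f lam * lam v =
      (Nat.card V : ℂ)⁻¹ * ∑ w : V, f w * ∑ lam : V →* ℂ, lam (w⁻¹ * v) := by
    simp only [cf_eq, Finset.mul_sum, Finset.sum_mul]
    rw [Finset.sum_comm]
    refine Finset.sum_congr rfl fun w _ => Finset.sum_congr rfl fun lam _ => ?_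
    rw [map_mul]
    ring
  rw [h1]
  simp only [sum_lam hV]
  have h2 : ∀ w : V, (f w * if w⁻¹ * v = 1 then (Nat.card V : ℂ) else 0) =
      if w = v then f w * (Nat.card V : ℂ) else 0 := by
    intro w
    by_cases h : w = v
    · rw [if_pos h, if_pos (by rw [h, inv_mul_cancel])]
    · rw [if_neg h, if_neg (by
        intro h3
        exact h (inv_mul_eq_one.1 h3)), mul_zero]
  simp only [h2]
  rw [Finset.sum_ite_eq' Finset.univ v, if_pos (Finset.mem_univ v)]
  have := cardC_ne (V := V)
  field_simp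

/-- row orthogonality -/
theorem cf_const (a : ℂ) (lam : V →* ℂ) : cf (fun _ => a) lam = a ∨ cf (fun _ => a) lam = 0 := by
  classical
  haveI := Fintype.ofFinite V
  rw [cf_eq, ← Finset.mul_sum]
  by_cases h : ∃ w, lam w ≠ 1
  · right
    obtain ⟨w, hw⟩ := h
    have h1 : lam w * ∑ v : V, lam v⁻¹ = ∑ v : V, lam v⁻¹ := by
      rw [Finset.mul_sum]
      refine Fintype.sum_bijective (fun v => v * w⁻¹) (Group.mulRight_bijective w⁻¹) _ _
        fun v => ?_
      rw [← map_mul, mul_inv_rev, inv_inv]
    have h2 : (lam w - 1) * ∑ v : V, lam v⁻¹ = 0 := by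
      rw [sub_mul, h1, one_mul, sub_self]
    rw [(mul_eq_zero.1 h2).resolve_left (sub_ne_zero.2 hw), mul_zero, mul_zero]
  · left
    push Not at h
    simp only [h, Finset.sum_const, Finset.card_univ, nsmul_eq_mul, mul_one]
    rw [← Nat.card_eq_fintype_card]
    have := cardC_ne (V := V)
    field_simp

/-- the inverse of a linear character -/
def dv (mu : V →* ℂ) : V →* ℂ where
  toFun v := mu v⁻¹
  map_one' := by rw [inv_one, map_one]
  map_mul' a b := by rw [mul_inv_rev, map_mul, mul_comm]

theorem cf_mul (hV : ∀ a b : V, a * b = b * a) [Fintype (V →* ℂ)] (f g : V → ℂ) (lam : V →* ℂ) :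
    cf (fun v => f v * g v) lam = ∑ mu : V →* ℂ, cf f mu * cf g (lam * dv mu) := by
  classical
  haveI := Fintype.ofFinite V
  have h1 : ∀ mu : V →* ℂ, cf g (lam * dv mu) =
      (Nat.card V : ℂ)⁻¹ * ∑ v : V, g v * (lam v⁻¹ * mu v) := by
    intro mu
    rw [cf_eq]
    congr 1
    refine Finset.sum_congr rfl fun v _ => ?_
    rw [MonoidHom.mul_apply]
    congr 2
    show mu (v⁻¹)⁻¹ = mu v
    rw [inv_inv]
  simp only [h1]
  rw [cf_eq]
  have h2 : ∀ v : V, f v * g v * lam v⁻¹ =
      ∑ mu : V →* ℂ, cf f mu * (g v * (lam v⁻¹ * mu v)) := by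
    intro v
    conv_lhs => rw [inversion hV f v]
    rw [Finset.sum_mul, Finset.sum_mul]
    refine Finset.sum_congr rfl fun mu _ => ?_
    ring
  simp only [h2]
  rw [Finset.sum_comm, Finset.mul_sum]
  refine Finset.sum_congr rfl fun mu _ => ?_
  rw [Finset.mul_sum, Finset.mul_sum, Finset.mul_sum]
  refine Finset.sum_congr rfl fun v _ => ?_
  ring

theorem cf_add (f g : V → ℂ) (lam : V →* ℂ) :
    cf (fun v => f v + g v) lam = cf f lam + cf g lam := by
  haveI := Fintype.ofFinite V
  simp only [cf_eq]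
  rw [← mul_add, ← Finset.sum_add_distrib]
  congr 1
  refine Finset.sum_congr rfl fun v _ => ?_
  ring

end four

variable {M : Ideal (integralClosure ℤ ℂ)} [M.IsMaximal] {G : Type} [Group G] [Finite G]

theorem Rv_iff {V : Subgroup G} {f : G → ℂ} :
    Rv M V f ↔ ∀ lam : V →* ℂ, cf (fun v : V => f v) lam ∈ RM M := Iff.rfl

theorem comm_sub {V : Subgroup G} (hV : ∀ a ∈ V, ∀ b ∈ V, a * b = b * a) (a b : V) :
    a * b = b * a := Subtype.ext (hV a a.2 b b.2)

theorem Rv_congr {V : Subgroup G} {f g : G → ℂ} (h : ∀ v ∈ V, f v = g v) (hf : Rv M V f) :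
    Rv M V g := by
  intro lam
  have h1 := hf lam
  have e : (fun v : V => f v * lam v⁻¹) = fun v : V => g v * lam v⁻¹ := by
    funext v
    rw [h v v.2]
  rw [e] at h1
  exact h1

theorem Rv_val {V : Subgroup G} (hV : ∀ a ∈ V, ∀ b ∈ V, a * b = b * a) {f : G → ℂ}
    (hf : Rv M V f) {v : G} (hv : v ∈ V) : f v ∈ RM M := by
  haveI := finite_hom (V := V)
  haveI := Fintype.ofFinite (V →* ℂ)
  have h := inversion (comm_sub hV) (fun v : V => f v) ⟨v, hv⟩
  simp only at h
  rw [h]
  exact Subring.sum_mem _ fun lam _ => (RM M).mul_mem (hf lam) (RM_of_int (lam_integral lam _))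

/-- conjugation with an element of the normaliser -/
def cj {V : Subgroup G} {t : G} (ht : t ∈ Subgroup.normalizer (V : Set G)) : V ≃ V where
  toFun v := ⟨t * v * t⁻¹, (Subgroup.mem_normalizer_iff.1 ht v).1 v.2⟩
  invFun v := ⟨t⁻¹ * v * t, by
    have h := Subgroup.mem_normalizer_iff.1 (inv_mem ht) v
    rw [inv_inv] at h
    exact h.1 v.2⟩
  left_inv v := by
    ext
    simp [mul_assoc]
  right_inv v := by
    ext
    simp [mul_assoc]

theorem rva : RvaStmt := by
  intro M _ G _ _ V hV
  haveI := finite_hom (V := V)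
  haveI := Fintype.ofFinite (V →* ℂ)
  refine ⟨fun a ha lam => ?_, fun f g hf hg => ⟨fun lam => ?_, fun lam => ?_⟩, fun f hf lam => ?_,
    fun f hf v hv => Rv_val hV hf hv, fun f hf t ht lam => ?_, fun f g h hf => Rv_congr h hf⟩
  · rcases cf_const (V := V) a lam with h | h
    · have h1 : cf (fun _ : V => a) lam ∈ RM M := by rw [h]; exact ha
      exact h1
    · have h1 : cf (fun _ : V => a) lam ∈ RM M := by rw [h]; exact (RM M).zero_mem
      exact h1
  · have h1 : cf (fun v : V => f v + g v) lam ∈ RM M := by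
      rw [cf_add (fun v : V => f v) (fun v : V => g v)]
      exact (RM M).add_mem (hf lam) (hg lam)
    exact h1
  · have h1 : cf (fun v : V => f v * g v) lam ∈ RM M := by
      rw [cf_mul (comm_sub hV) (fun v : V => f v) (fun v : V => g v)]
      exact Subring.sum_mem _ fun mu _ => (RM M).mul_mem (hf mu) (hg _)
    exact h1
  · have h1 : cf (fun v : V => (Nat.card V : ℂ) * f v) lam ∈ RM M := by
      haveI := Fintype.ofFinite V
      have e : cf (fun v : V => (Nat.card V : ℂ) * f v) lam = ∑ v : V, f v * lam v⁻¹ := by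
        rw [cf_eq]
        have e1 : ∀ v : V, (Nat.card V : ℂ) * f v * lam v⁻¹ =
            (Nat.card V : ℂ) * (f v * lam v⁻¹) := fun v => by ring
        simp only [e1]
        rw [← Finset.mul_sum, ← mul_assoc, inv_mul_cancel₀ (cardC_ne (V := V)), one_mul]
      rw [e]
      exact Subring.sum_mem _ fun v _ => (RM M).mul_mem (hf v v.2)
        (RM_of_int (lam_integral lam _))
    exact h1
  · set lam' : V →* ℂ :=
      { toFun := fun v => lam ((cj ht).symm v)
        map_one' := by
          have e : (cj ht).symm 1 = 1 := by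
            ext
            simp [cj]
          rw [e, map_one]
        map_mul' := by
          intro a b
          have e : (cj ht).symm (a * b) = (cj ht).symm a * (cj ht).symm b := by
            ext
            simp [cj, mul_assoc]
          rw [e, map_mul] } with hl
    have h1 := hf lam'
    haveI := Fintype.ofFinite V
    have e : cf (fun v : V => f (t * v * t⁻¹)) lam = cf (fun v : V => f v) lam' := by
      rw [cf_eq, cf_eq]
      congr 1
      refine Fintype.sum_equiv (cj ht) _ _ fun v => ?_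
      have e2 : (cj ht).symm (cj ht v)⁻¹ = v⁻¹ := by
        ext
        simp [cj, mul_assoc]
      show f (t * v * t⁻¹) * lam v⁻¹ = f (cj ht v) * lam ((cj ht).symm (cj ht v)⁻¹)
      rw [e2]
      rfl
    have h2 : cf (fun v : V => f (t * v * t⁻¹)) lam ∈ RM M := by
      rw [e]
      exact h1
    exact h2

end Pool.Agent.PP.T8.H21
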