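import Pool.Agent.Helper21_AT8.RVA

/-!
# RVC: congruences between the values
-/

set_option autoImplicit false
set_option linter.unusedSectionVars false
set_option linter.style.haveILetI false

open scoped BigOperators

noncomputable section

namespace Pool.Agent.PP.T8.H21

open Pool.Agent.Helper51_AWC Pool.Agent.Helper79_WRA Pool.Agent.PP Pool.Agent.PP.KF
open Pool.Agent.PP.K9 Pool.Agent.PP.K9.H97 Pool.Agent.PP.H75 Pool.Agent.PP.T3 Pool.Agent.PP.T2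

attribute [local instance] Ideal.Quotient.field

theorem one_sub_pow' (z : ℂ) (k : ℕ) : 1 - z ^ k = (1 - z) * ∑ i ∈ Finset.range k, z ^ i :=
  (mul_neg_geom_sum z k).symm

theorem geom_integral {z : ℂ} (hz : IsIntegral ℤ z) (k : ℕ) :
    IsIntegral ℤ (∑ i ∈ Finset.range k, z ^ i) :=
  IsIntegral.sum _ fun i _ => hz.pow i

theorem prod_primitive {ℓ : ℕ} [Fact ℓ.Prime] {A : ℕ} (hA : 0 < A) {ζ : ℂ}
    (hζ : IsPrimitiveRoot ζ (ℓ ^ A)) :
    ∏ μ ∈ primitiveRoots (ℓ ^ A) ℂ, (1 - μ) = (ℓ : ℂ) := by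
  obtain ⟨k, rfl⟩ : ∃ k, A = k + 1 := ⟨A - 1, by omega⟩
  have h1 := Polynomial.eval_one_cyclotomic_prime_pow (R := ℂ) (p := ℓ) k
  rw [Polynomial.cyclotomic_eq_prod_X_sub_primitiveRoots hζ, Polynomial.eval_prod] at h1
  rw [← h1]
  refine Finset.prod_congr rfl fun μ _ => ?_
  simp

theorem pow_eq_l {ℓ : ℕ} [Fact ℓ.Prime] {A : ℕ} (hA : 0 < A) {ζ : ℂ}
    (hζ : IsPrimitiveRoot ζ (ℓ ^ A)) :
    ∃ c : ℂ, IsIntegral ℤ c ∧ (1 - ζ) ^ (primitiveRoots (ℓ ^ A) ℂ).card = (ℓ : ℂ) * c := by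
  classical
  have hpos : 0 < ℓ ^ A := pow_pos (Fact.out : ℓ.Prime).pos A
  haveI : NeZero (ℓ ^ A) := ⟨hpos.ne'⟩
  have key : ∀ μ ∈ primitiveRoots (ℓ ^ A) ℂ, ∃ c : ℂ, IsIntegral ℤ c ∧
      1 - ζ = (1 - μ) * c := by
    intro μ hμ
    have h1 : IsPrimitiveRoot μ (ℓ ^ A) := (mem_primitiveRoots hpos).1 hμ
    obtain ⟨j, -, hj⟩ := h1.eq_pow_of_pow_eq_one hζ.pow_eq_one
    exact ⟨_, geom_integral (h1.isIntegral hpos) j, by rw [← hj, one_sub_pow']⟩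
  choose! c hc1 hc2 using key
  refine ⟨∏ μ ∈ primitiveRoots (ℓ ^ A) ℂ, c μ, IsIntegral.prod _ hc1, ?_⟩
  rw [← prod_primitive hA hζ, ← Finset.prod_mul_distrib, ← Finset.prod_const]
  exact Finset.prod_congr rfl hc2

theorem rvc : RvcStmt := by
  intro ℓ hℓ M hM hlM A hA ζ hζ
  have hpos : 0 < ℓ ^ A := pow_pos (Fact.out : ℓ.Prime).pos A
  haveI : NeZero (ℓ ^ A) := ⟨hpos.ne'⟩
  have hζi : IsIntegral ℤ ζ := hζ.isIntegral hpos
  have h1 : (1 - ζ) ∈ RM M := RM_of_int (isIntegral_one.sub hζi)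
  obtain ⟨c, hc, hc2⟩ := pow_eq_l hA hζ
  set m := (primitiveRoots (ℓ ^ A) ℂ).card with hm
  have hm0 : m ≠ 0 := by
    rw [hm]
    exact (Finset.card_pos.2 ⟨ζ, (mem_primitiveRoots hpos).2 hζ⟩).ne'
  have hK : (1 - ζ) ^ (m * A) = (ℓ : ℂ) ^ A * c ^ A := by
    rw [pow_mul, hc2, mul_pow]
  refine ⟨h1, ?_, ⟨m * A, c ^ A, RM_of_int (hc.pow A), hK⟩, ?_⟩
  · have h2 : rr M ((1 - ζ) ^ m) = rr M (1 - ζ) ^ m :=
      map_pow (rrHom M) ⟨1 - ζ, h1⟩ m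
    have h3 : rr M (ℓ : ℂ) = 0 := by
      have := (dvd_of_rr (M := M) (Fact.out : ℓ.Prime) hlM (n := (ℓ : ℤ))).2 dvd_rfl
      exact_mod_cast this
    rw [hc2, rr_mul (rr_nat ℓ).1 (RM_of_int hc), h3, zero_mul] at h2
    exact (pow_eq_zero_iff hm0).1 h2.symm
  · intro G _ _ V hV hcard f hf v hv
    haveI := finite_hom (V := V)
    haveI := Fintype.ofFinite (V →* ℂ)
    have key : ∀ lam : V →* ℂ, ∃ c : ℂ, IsIntegral ℤ c ∧ lam ⟨v, hv⟩ - 1 = (1 - ζ) * c := by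
      intro lam
      have h2 := lam_pow lam ⟨v, hv⟩
      rw [hcard] at h2
      obtain ⟨j, -, hj⟩ := hζ.eq_pow_of_pow_eq_one h2
      refine ⟨-∑ i ∈ Finset.range j, ζ ^ i, (geom_integral hζi j).neg, ?_⟩
      rw [mul_neg, ← one_sub_pow', hj]
      ring
    choose d hd1 hd2 using key
    refine ⟨∑ lam : V →* ℂ, cf (fun v : V => f v) lam * d lam, Subring.sum_mem _ fun lam _ =>
      (RM M).mul_mem (hf lam) (RM_of_int (hd1 lam)), ?_⟩
    have h3 := inversion (comm_sub hV) (fun v : V => f v) ⟨v, hv⟩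
    have h4 := inversion (comm_sub hV) (fun v : V => f v) 1
    simp only at h3
    have h5 : f ((1 : V) : G) = f 1 := rfl
    simp only [map_one, mul_one] at h4
    rw [h5] at h4
    rw [h3, h4, ← Finset.sum_sub_distrib, Finset.mul_sum]
    refine Finset.sum_congr rfl fun lam _ => ?_
    rw [mul_left_comm, ← hd2]
    ring

end Pool.Agent.PP.T8.H21
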